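import Mathlib

/-!
Basic operators for the real-rootedness of toric g-contribution polynomials.
-/

open Polynomial

namespace Pool.Agent.Lib.MP_141d57_co

/-- The operator `x d/dx + c`. -/
noncomputable def T (c : ℝ) (f : ℝ[X]) : ℝ[X] := X * derivative f + C c * f

/-- The polynomial `∑ i ≤ m, (-1)^i (m choose i) p(i) X^i`. -/
noncomputable def S (m : ℕ) (p : ℕ → ℝ) : ℝ[X] :=
  ∑ i ∈ Finset.range (m + 1), C ((-1) ^ i * (m.choose i : ℝ) * p i) * X ^ i

/-- All complex roots are positive reals (and the polynomial is nonzero). -/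
def PR (f : ℝ[X]) : Prop := f ≠ 0 ∧ ∀ z : ℂ, aeval z f = 0 → z.im = 0 ∧ 0 < z.re

lemma S_coeff (m : ℕ) (p : ℕ → ℝ) (i : ℕ) :
    (S m p).coeff i = (-1) ^ i * (m.choose i : ℝ) * p i := by
  unfold S
  rw [finsetSum_coeff]
  simp only [coeff_C_mul, coeff_X_pow]
  by_cases hi : i < m + 1
  · rw [Finset.sum_eq_single i]
    · simp
    · intro b _ hb
      simp [Ne.symm hb]
    · intro h
      exact absurd (Finset.mem_range.mpr hi) h
  · rw [Finset.sum_eq_zero]
    · rw [Nat.choose_eq_zero_of_lt (by omega)]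
      simp
    · intro b hb
      have : i ≠ b := by
        intro h
        rw [h] at hi
        exact hi (Finset.mem_range.mp hb)
      simp [this]

lemma T_coeff (c : ℝ) (f : ℝ[X]) (i : ℕ) :
    (T c f).coeff i = ((i : ℝ) + c) * f.coeff i := by
  unfold T
  rw [coeff_add, coeff_C_mul]
  cases i with
  | zero => simp
  | succ i =>
    rw [coeff_X_mul, coeff_derivative]
    push_cast
    ring

lemma T_S (c : ℝ) (m : ℕ) (p : ℕ → ℝ) :
    T c (S m p) = S m (fun i => ((i : ℝ) + c) * p i) := by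
  ext i
  rw [T_coeff, S_coeff, S_coeff]
  ring

lemma S_congr {m : ℕ} {p q : ℕ → ℝ} (h : ∀ i, i ≤ m → p i = q i) : S m p = S m q := by
  unfold S
  refine Finset.sum_congr rfl fun i hi => ?_
  rw [h i (by have := Finset.mem_range.mp hi; omega)]

lemma S_natDegree {m : ℕ} {p : ℕ → ℝ} (h : p m ≠ 0) : (S m p).natDegree = m := by
  apply le_antisymm
  · rw [natDegree_le_iff_coeff_eq_zero]
    intro N hN
    rw [S_coeff, Nat.choose_eq_zero_of_lt hN]
    simp
  · apply le_natDegree_of_ne_zero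
    rw [S_coeff]
    simp [h]

lemma S_ne_zero {m : ℕ} {p : ℕ → ℝ} (h : p m ≠ 0) : S m p ≠ 0 := by
  intro h0
  have := congrArg (fun f => coeff f m) h0
  simp only [S_coeff, coeff_zero] at this
  simp [h] at this

lemma S_eval (m : ℕ) (p : ℕ → ℝ) (x : ℝ) :
    (S m p).eval x = ∑ i ∈ Finset.range (m + 1), (m.choose i : ℝ) * p i * (-x) ^ i := by
  unfold S
  rw [eval_finsetSum]
  refine Finset.sum_congr rfl fun i _ => ?_
  simp only [eval_mul, eval_C, eval_pow, eval_X]
  rw [neg_pow x i]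
  ring

lemma S_eval_pos_of_nonpos {m : ℕ} {p : ℕ → ℝ} (hp : ∀ i, i ≤ m → 0 < p i) {x : ℝ}
    (hx : x ≤ 0) : 0 < (S m p).eval x := by
  rw [S_eval]
  apply Finset.sum_pos'
  · intro i hi
    have h1 := hp i (by have := Finset.mem_range.mp hi; omega)
    have h2 : (0 : ℝ) ≤ (-x) ^ i := pow_nonneg (by linarith) i
    positivity
  · refine ⟨0, by simp, ?_⟩
    have h1 := hp 0 (by omega)
    simpa using h1

lemma S_one (m : ℕ) : S m (fun _ => 1) = (1 - X) ^ m := by
  have h : (1 - X : ℝ[X]) ^ m = ((-X) + 1) ^ m := by ring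
  rw [h, add_pow]
  unfold S
  refine Finset.sum_congr rfl fun i _ => ?_
  simp only [mul_one, one_pow]
  rw [C_mul, C_pow, neg_pow (X : ℝ[X]) i]
  simp only [C_neg, C_1, map_natCast]
  ring

/-- complex evaluation of `T`. -/
lemma aeval_T (c : ℝ) (f : ℝ[X]) (z : ℂ) :
    aeval z (T c f) = z * aeval z (derivative f) + (c : ℂ) * aeval z f := by
  unfold T
  simp

lemma PR.ne (f : ℝ[X]) (hf : PR f) {z : ℂ} (hz : z.im ≠ 0) : aeval z f ≠ 0 := by
  intro h
  exact hz (hf.2 z h).1

/-- Roots of the complexification. -/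
lemma PR.mem_roots {f : ℝ[X]} (hf : PR f) {r : ℂ}
    (hr : r ∈ (f.map (algebraMap ℝ ℂ)).roots) : r.im = 0 ∧ 0 < r.re := by
  apply hf.2
  have h1 := (Polynomial.mem_roots'.mp hr).2
  rw [IsRoot.def, eval_map] at h1
  rwa [aeval_def]

lemma logDeriv_eq {f : ℝ[X]} {z : ℂ} (hz : aeval z f ≠ 0) :
    aeval z (derivative f) / aeval z f =
      ((f.map (algebraMap ℝ ℂ)).roots.map fun r => 1 / (z - r)).sum := by
  have h1 : (f.map (algebraMap ℝ ℂ)).eval z ≠ 0 := by
    rw [eval_map]
    rwa [aeval_def] at hz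
  have h2 := (IsAlgClosed.splits (f.map (algebraMap ℝ ℂ))).eval_derivative_div_eval_of_ne_zero h1
  rw [← h2, derivative_map, eval_map, eval_map, aeval_def, aeval_def]

lemma im_term {z r : ℂ} (hr : r.im = 0) (hz : z ≠ r) :
    (z * (1 / (z - r))).im = -(z.im * (r.re / Complex.normSq (z - r))) := by
  have h0 : Complex.normSq (z - r) ≠ 0 := by
    rw [Ne, Complex.normSq_eq_zero, sub_eq_zero]
    exact hz
  rw [one_div, Complex.mul_im, Complex.inv_re, Complex.inv_im]
  simp only [Complex.sub_re, Complex.sub_im, hr, sub_zero]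
  field_simp
  ring

/-- Sum expression of the imaginary part. -/
lemma im_sum {s : Multiset ℂ} {z : ℂ} (hs : ∀ r ∈ s, r.im = 0) (hz : ∀ r ∈ s, z ≠ r) :
    (z * (s.map fun r => 1 / (z - r)).sum).im =
      -(z.im * (s.map fun r => r.re / Complex.normSq (z - r)).sum) := by
  induction s using Multiset.induction_on with
  | empty => simp
  | cons a s ih =>
    have h1 := ih (fun r hr => hs r (Multiset.mem_cons_of_mem hr))
      (fun r hr => hz r (Multiset.mem_cons_of_mem hr))
    have h2 := im_term (hs a (Multiset.mem_cons_self a s)) (hz a (Multiset.mem_cons_self a s))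
    rw [Multiset.map_cons, Multiset.sum_cons, mul_add, Complex.add_im, h1, h2,
      Multiset.map_cons, Multiset.sum_cons]
    ring

lemma sum_pos_of_mem {s : Multiset ℂ} {z : ℂ} (hs : ∀ r ∈ s, 0 < r.re)
    (hz : ∀ r ∈ s, z ≠ r) (hne : s ≠ 0) :
    0 < (s.map fun r => r.re / Complex.normSq (z - r)).sum := by
  obtain ⟨a, t, rfl⟩ : ∃ a t, s = a ::ₘ t := by
    obtain ⟨a, ha⟩ := Multiset.exists_mem_of_ne_zero hne
    exact ⟨a, s.erase a, (Multiset.cons_erase ha).symm⟩
  rw [Multiset.map_cons, Multiset.sum_cons]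
  have h1 : 0 < a.re / Complex.normSq (z - a) := by
    apply div_pos (hs a (Multiset.mem_cons_self a t))
    rw [Complex.normSq_pos, sub_ne_zero]
    exact hz a (Multiset.mem_cons_self a t)
  have h2 : 0 ≤ (t.map fun r => r.re / Complex.normSq (z - r)).sum := by
    apply Multiset.sum_nonneg
    intro x hx
    obtain ⟨r, hr, rfl⟩ := Multiset.mem_map.mp hx
    exact div_nonneg (hs r (Multiset.mem_cons_of_mem hr)).le (Complex.normSq_nonneg _)
  linarith

/-- `z f'(z) / f(z)`. -/
noncomputable def w (f : ℝ[X]) (z : ℂ) : ℂ := z * (aeval z (derivative f) / aeval z f)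

lemma roots_ne_zero {f : ℝ[X]} (hd : f.natDegree ≠ 0) :
    (f.map (algebraMap ℝ ℂ)).roots ≠ 0 := by
  intro h
  have h1 := (IsAlgClosed.splits (f.map (algebraMap ℝ ℂ))).natDegree_eq_card_roots
  rw [h, natDegree_map] at h1
  exact hd (by simpa using h1)

lemma w_im_neg {f : ℝ[X]} (hf : PR f) (hd : f.natDegree ≠ 0) {z : ℂ} (hz : 0 < z.im) :
    (w f z).im < 0 := by
  have h0 : aeval z f ≠ 0 := PR.ne f hf hz.ne'
  have hne : ∀ r ∈ (f.map (algebraMap ℝ ℂ)).roots, z ≠ r := by
    intro r hr h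
    have := (hf.mem_roots hr).1
    rw [← h] at this
    exact hz.ne' this
  unfold w
  rw [logDeriv_eq h0, im_sum (fun r hr => (hf.mem_roots hr).1) hne]
  have := sum_pos_of_mem (fun r hr => (hf.mem_roots hr).2) hne (roots_ne_zero hd)
  have := mul_pos hz this
  linarith

lemma w_im_pos {f : ℝ[X]} (hf : PR f) (hd : f.natDegree ≠ 0) {z : ℂ} (hz : z.im < 0) :
    0 < (w f z).im := by
  have h0 : aeval z f ≠ 0 := PR.ne f hf hz.ne
  have hne : ∀ r ∈ (f.map (algebraMap ℝ ℂ)).roots, z ≠ r := by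
    intro r hr h
    have := (hf.mem_roots hr).1
    rw [← h] at this
    exact hz.ne this
  unfold w
  rw [logDeriv_eq h0, im_sum (fun r hr => (hf.mem_roots hr).1) hne]
  have := sum_pos_of_mem (fun r hr => (hf.mem_roots hr).2) hne (roots_ne_zero hd)
  have := mul_pos_of_neg_of_neg hz (neg_neg_of_pos this)
  linarith

lemma aeval_T_eq (c : ℝ) {f : ℝ[X]} {z : ℂ} (hz : aeval z f ≠ 0) :
    aeval z (T c f) = aeval z f * (w f z + c) := by
  rw [aeval_T]
  unfold w
  field_simp

end Pool.Agent.Lib.MP_141d57_co
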