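import Mathlib

/-!
Abstract chain lemma on arguments of polynomials in the upper half plane.
-/

open Polynomial

namespace Pool.Agent.Lib.MP_141d57_co

lemma prod_polar (n : ℕ) (q : ℕ → ℂ) :
    ∏ k ∈ Finset.range n, q k =
      ((∏ k ∈ Finset.range n, ‖q k‖ : ℝ) : ℂ) *
        Complex.exp (((∑ k ∈ Finset.range n, (q k).arg : ℝ) : ℂ) * Complex.I) := by
  induction n with
  | zero => simp
  | succ n ih =>
    rw [Finset.prod_range_succ, ih, Finset.prod_range_succ, Finset.sum_range_succ]
    conv_lhs => rw [← Complex.norm_mul_exp_arg_mul_I (q n)]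
    push_cast
    rw [add_mul, Complex.exp_add]
    ring

lemma prod_polar_im (n : ℕ) (q : ℕ → ℂ) :
    (∏ k ∈ Finset.range n, q k).im =
      (∏ k ∈ Finset.range n, ‖q k‖) * Real.sin (∑ k ∈ Finset.range n, (q k).arg) := by
  rw [prod_polar, Complex.im_ofReal_mul, Complex.exp_ofReal_mul_I_im]

lemma arg_pos_of_im_pos {x : ℂ} (h : 0 < x.im) : 0 < x.arg := by
  rcases (Complex.arg_nonneg_iff.mpr h.le).lt_or_eq with h1 | h1
  · exact h1
  · have := (Complex.arg_eq_zero_iff.mp h1.symm).2
    exact absurd this h.ne'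

lemma prod_range_div' (f : ℕ → ℂ) (n : ℕ) (h : ∀ k ≤ n, f k ≠ 0) :
    ∏ i ∈ Finset.range n, f (i + 1) / f i = f n / f 0 := by
  induction n with
  | zero => simp [h 0 le_rfl]
  | succ n ih =>
    rw [Finset.prod_range_succ, ih (fun k hk => h k (by omega))]
    have h1 := h n (by omega)
    have h2 := h 0 (by omega)
    field_simp

lemma chain (N : ℕ) (f : ℕ → ℝ[X]) (hpos : ∀ k ≤ N, 0 < (f k).eval 0)
    (hrel : ∀ k < N, ∀ z : ℂ, 0 < z.im → 0 < (aeval z (f (k + 1)) / aeval z (f k)).im)
    (hend : ∀ z : ℂ, 0 < z.im → 0 < (aeval z (f N) / aeval z (f 0)).im) :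
    ∀ k, 1 ≤ k → k ≤ N → ∀ z : ℂ, 0 < z.im → 0 < (aeval z (f k) / aeval z (f 0)).im := by
  intro k hk1 hkN z hz
  have hz0 : ∀ k : ℕ, aeval (0 : ℂ) (f k) = (((f k).eval 0 : ℝ) : ℂ) := by
    intro k
    have h5 := Polynomial.aeval_algebraMap_apply ℂ (0 : ℝ) (f k)
    rw [Complex.coe_algebraMap, coe_aeval_eq_eval] at h5
    simpa using h5
  -- nonvanishing
  have hne : ∀ y : ℂ, 0 < y.im → ∀ k ≤ N, aeval y (f k) ≠ 0 := by
    intro y hy k hk h0
    rcases Nat.lt_or_ge k N with hlt | hge
    · have := hrel k hlt y hy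
      rw [h0] at this
      simp at this
    · have hkeq : k = N := le_antisymm hk hge
      have := hend y hy
      rw [← hkeq, h0] at this
      simp at this
  set q : ℕ → ℝ → ℂ := fun k t =>
    aeval ((t : ℂ) * z) (f (k + 1)) / aeval ((t : ℂ) * z) (f k) with hq
  have him : ∀ t : ℝ, 0 < t → 0 < ((t : ℂ) * z).im := by
    intro t ht
    rw [Complex.im_ofReal_mul]
    positivity
  have hne' : ∀ t : ℝ, 0 ≤ t → ∀ k ≤ N, aeval ((t : ℂ) * z) (f k) ≠ 0 := by
    intro t ht k hk
    rcases ht.lt_or_eq with h | h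
    · exact hne _ (him t h) k hk
    · rw [← h]
      simp only [Complex.ofReal_zero, zero_mul]
      rw [hz0 k]
      exact_mod_cast (hpos k hk).ne'
  have hslit : ∀ k < N, ∀ t : ℝ, 0 ≤ t → q k t ∈ Complex.slitPlane := by
    intro k hk t ht
    rw [Complex.mem_slitPlane_iff]
    rcases ht.lt_or_eq with h | h
    · right
      exact (hrel k hk _ (him t h)).ne'
    · left
      simp only [hq]
      rw [← h]
      simp only [Complex.ofReal_zero, zero_mul]
      rw [hz0 k, hz0 (k + 1), ← Complex.ofReal_div, Complex.ofReal_re]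
      exact div_pos (hpos _ (by omega)) (hpos _ (by omega))
  have hcontF : ∀ k : ℕ, Continuous fun t : ℝ => aeval ((t : ℂ) * z) (f k) := by
    intro k
    exact (Polynomial.continuous_aeval (f k)).comp
      (Complex.continuous_ofReal.mul continuous_const)
  have hcont : ∀ k < N, ContinuousOn (fun t : ℝ => (q k t).arg) (Set.Icc 0 1) := by
    intro k hk t ht
    have h1 : ContinuousAt (q k) t := by
      apply ContinuousAt.div (hcontF (k + 1)).continuousAt (hcontF k).continuousAt
      exact hne' t ht.1 k hk.le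
    exact (ContinuousAt.comp (Complex.continuousAt_arg (hslit k hk t ht.1)) h1).continuousWithinAt
  set R : ℝ → ℝ := fun t => ∑ k ∈ Finset.range N, (q k t).arg with hR
  have hRcont : ContinuousOn R (Set.Icc 0 1) := by
    apply continuousOn_finsetSum
    intro k hk
    exact hcont k (Finset.mem_range.mp hk)
  have hR0 : R 0 = 0 := by
    apply Finset.sum_eq_zero
    intro k hk
    have hk' := Finset.mem_range.mp hk
    rw [Complex.arg_eq_zero_iff]
    simp only [hq, Complex.ofReal_zero, zero_mul]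
    rw [hz0 k, hz0 (k + 1), ← Complex.ofReal_div, Complex.ofReal_re, Complex.ofReal_im]
    exact ⟨(div_pos (hpos _ (by omega)) (hpos _ (by omega))).le, rfl⟩
  have hRlt : R 1 < Real.pi := by
    by_contra hge
    push Not at hge
    have h1 : Real.pi ∈ R '' Set.Icc (0 : ℝ) 1 := by
      apply intermediate_value_Icc zero_le_one hRcont
      rw [hR0]
      exact ⟨Real.pi_pos.le, hge⟩
    obtain ⟨t, ht, hRt⟩ := h1
    have ht0 : 0 < t := by
      rcases ht.1.lt_or_eq with h | h
      · exact h
      · rw [← h, hR0] at hRt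
        exact absurd hRt Real.pi_pos.ne
    have h2 := hend _ (him t ht0)
    have h3 := prod_range_div' (fun k => aeval ((t : ℂ) * z) (f k)) N
      (fun k hk => hne' t ht0.le k hk)
    have h4 := prod_polar_im N (fun k => q k t)
    simp only [hq] at h4
    rw [h3] at h4
    have h5 : ∑ k ∈ Finset.range N,
        (aeval ((t : ℂ) * z) (f (k + 1)) / aeval ((t : ℂ) * z) (f k)).arg = Real.pi := hRt
    rw [h5, Real.sin_pi, mul_zero] at h4
    rw [h4] at h2
    exact lt_irrefl _ h2
  -- partial sums
  have hargpos : ∀ i < N, 0 < (q i 1).arg := by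
    intro i hi
    apply arg_pos_of_im_pos
    exact hrel i hi _ (him 1 one_pos)
  have hle : ∑ i ∈ Finset.range k, (q i 1).arg ≤ R 1 := by
    apply Finset.sum_le_sum_of_subset_of_nonneg
    · intro i hi
      rw [Finset.mem_range] at hi ⊢
      omega
    · intro i hi _
      exact (hargpos i (Finset.mem_range.mp hi)).le
  have hgt : 0 < ∑ i ∈ Finset.range k, (q i 1).arg := by
    apply Finset.sum_pos
    · intro i hi
      exact hargpos i (by have := Finset.mem_range.mp hi; omega)
    · exact ⟨0, Finset.mem_range.mpr (by omega)⟩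
  have h3 := prod_range_div' (fun k => aeval (((1 : ℝ) : ℂ) * z) (f k)) k
    (fun i hi => hne' 1 zero_le_one i (by omega))
  have h4 := prod_polar_im k (fun k => q k 1)
  simp only [hq] at h4
  rw [h3] at h4
  have hz1 : ((1 : ℝ) : ℂ) * z = z := by simp
  rw [hz1] at h4
  rw [h4]
  apply mul_pos
  · apply Finset.prod_pos
    intro i hi
    have hi' := Finset.mem_range.mp hi
    rw [norm_pos_iff]
    have h6 := hne' 1 zero_le_one (i + 1) (by omega)
    have h7 := hne' 1 zero_le_one i (by omega)
    rw [hz1] at h6 h7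
    exact div_ne_zero h6 h7
  · apply Real.sin_pos_of_pos_of_lt_pi
    · simp only [hq, hz1] at hgt
      exact hgt
    · simp only [hq, hz1] at hle
      exact lt_of_le_of_lt hle hRlt

end Pool.Agent.Lib.MP_141d57_co
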