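import Pool.Agent.Lib.MP_141d57_co.Family

/-!
The Catalan coefficients in terms of the symbols.
-/

open Polynomial

namespace Pool.Agent.Lib.MP_141d57_co

/-- Base identity on factorials. -/
lemma fact_identity (e i r : ℕ) (he : e ≤ 1) :
    ((2 * (i + e + r)).factorial : ℝ) * (i.factorial : ℝ) =
      2 ^ (2 * r + e) * ((i + e + r).factorial : ℝ) * ((2 * i + e).factorial : ℝ) *
        ∏ t ∈ Finset.range r, ((i : ℝ) + ((e : ℝ) + 1 / 2 + t)) := by
  induction r with
  | zero =>
    interval_cases e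
    · simp
      ring
    · simp only [Finset.range_zero, Finset.prod_empty, mul_one, Nat.add_zero]
      have h1 : 2 * (i + 1) = (2 * i + 1) + 1 := by ring
      rw [h1, Nat.factorial_succ (2 * i + 1), Nat.factorial_succ i]
      push_cast
      ring
  | succ r ih =>
    rw [Finset.prod_range_succ]
    have h1 : 2 * (i + e + (r + 1)) = (2 * (i + e + r) + 1) + 1 := by ring
    have h2 : i + e + (r + 1) = (i + e + r) + 1 := by ring
    rw [h1, h2, Nat.factorial_succ, Nat.factorial_succ, Nat.factorial_succ (i + e + r)]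
    have h3 : 2 * (r + 1) + e = (2 * r + e) + 2 := by ring
    rw [h3, pow_add]
    push_cast
    linear_combination (2 * ((i : ℝ) + e + r) + 1 + 1) * (2 * ((i : ℝ) + e + r) + 1) * ih

lemma catalan_fact (M : ℕ) :
    (catalan M : ℝ) * ((M + 1).factorial : ℝ) * (M.factorial : ℝ) = ((2 * M).factorial : ℝ) := by
  have h1 := succ_mul_catalan_eq_centralBinom M
  have h2 : Nat.centralBinom M * (M.factorial * M.factorial) = (2 * M).factorial := by
    rw [Nat.centralBinom]
    have := Nat.choose_mul_factorial_mul_factorial (n := 2 * M) (k := M) (by omega)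
    rw [show 2 * M - M = M by omega] at this
    rw [← this]
    ring
  rw [← h2, ← h1, Nat.factorial_succ]
  push_cast
  ring

/-- The symbol for index `j`. -/
lemma symF_eq_zero (e m i : ℕ) (hm : m ≠ 0) :
    symF e m 1 i * (((i + e + m + 1).factorial : ℕ) : ℝ) =
      (∏ t ∈ Finset.range m, ((i : ℝ) + ((e : ℝ) + 1 / 2 + t))) *
        (((i + e + m).factorial : ℕ) : ℝ) := by
  obtain ⟨k, rfl⟩ : ∃ k, m = k + 1 := ⟨m - 1, by omega⟩
  show symQ0 e (k + 1) i * _ = _
  unfold symQ0 symS
  rw [Finset.prod_range_succ, Nat.factorial_succ (i + e + (k + 1))]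
  simp only [Nat.add_sub_cancel]
  push_cast
  have : ((i : ℝ) + e + (k + 1) + 1) ≠ 0 := by positivity
  field_simp

lemma symF_eq_succ (e m i j : ℕ) (hj : j + 1 ≤ m) :
    symF e m (j + 2) i * (((i + e + (m - (j + 1)) + 1).factorial : ℕ) : ℝ) =
      (∏ t ∈ Finset.range (m - (j + 1)), ((i : ℝ) + ((e : ℝ) + 1 / 2 + t))) *
        (((i + e + m).factorial : ℕ) : ℝ) := by
  obtain ⟨r, hr⟩ : ∃ r, m = r + (j + 1) := ⟨m - (j + 1), by omega⟩
  subst hr
  show symP e (r + (j + 1)) j i * _ = _
  unfold symP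
  rw [show r + (j + 1) - (j + 1) = r by omega, show r + (j + 1) - 1 = r + j by omega,
    Finset.prod_range_add]
  have h1 : ∏ x ∈ Finset.range r, ((i : ℝ) + par e (r + (j + 1)) j x) =
      ∏ t ∈ Finset.range r, ((i : ℝ) + ((e : ℝ) + 1 / 2 + t)) := by
    apply Finset.prod_congr rfl
    intro t ht
    have ht' := Finset.mem_range.mp ht
    unfold par
    rw [if_neg (by omega), if_neg (by omega)]
    ring
  have h2 : ∏ x ∈ Finset.range j, ((i : ℝ) + par e (r + (j + 1)) j (r + x)) =
      ((∏ x ∈ Finset.range j, ((i + e + r + 1 + 1) + x) : ℕ) : ℝ) := by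
    push_cast
    apply Finset.prod_congr rfl
    intro t ht
    have ht' := Finset.mem_range.mp ht
    unfold par
    rw [if_pos (by omega), if_neg (by omega)]
    push_cast
    ring
  rw [h1, h2, ← Nat.ascFactorial_eq_prod_range]
  have h3 := Nat.factorial_mul_ascFactorial (i + e + r + 1) j
  have h4 : i + e + r + 1 + j = i + e + (r + (j + 1)) := by ring
  rw [h4] at h3
  have h5 : (((i + e + r + 1).factorial : ℕ) : ℝ) * (((i + e + r + 1 + 1).ascFactorial j : ℕ) : ℝ) =
      (((i + e + (r + (j + 1))).factorial : ℕ) : ℝ) := by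
    rw [← Nat.cast_mul, h3]
  rw [← h5]
  ring

/-- Uniform version. -/
lemma symF_eq (e m i j : ℕ) (hm : m ≠ 0) (hj : j ≤ m) :
    symF e m (j + 1) i * (((i + e + (m - j) + 1).factorial : ℕ) : ℝ) =
      (∏ t ∈ Finset.range (m - j), ((i : ℝ) + ((e : ℝ) + 1 / 2 + t))) *
        (((i + e + m).factorial : ℕ) : ℝ) := by
  cases j with
  | zero => simpa using symF_eq_zero e m i hm
  | succ j => exact symF_eq_succ e m i j hj

/-- The coefficient identity. -/
lemma coeff_identity (e m i j : ℕ) (he : e ≤ 1) (hm : m ≠ 0) (hj : j ≤ m) (hi : i ≤ m) :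
    (catalan (i + e + (m - j)) : ℝ) * ((i + e + m).choose (m - i) : ℝ) * (m.factorial : ℝ) =
      2 ^ (2 * (m - j) + e) * ((m.choose i : ℝ) * symF e m (j + 1) i) := by
  set r := m - j with hr
  have h1 := fact_identity e i r he
  have h2 := catalan_fact (i + e + r)
  have h3 := symF_eq e m i j hm hj
  rw [← hr] at h3
  have h4 : ((i + e + m).choose (m - i) : ℝ) * ((m - i).factorial : ℝ) *
      ((2 * i + e).factorial : ℝ) = ((i + e + m).factorial : ℝ) := by
    have := Nat.choose_mul_factorial_mul_factorial (n := i + e + m) (k := m - i) (by omega)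
    rw [show i + e + m - (m - i) = 2 * i + e by omega] at this
    exact_mod_cast this
  have h5 : (m.choose i : ℝ) * (i.factorial : ℝ) * ((m - i).factorial : ℝ) =
      (m.factorial : ℝ) := by
    exact_mod_cast Nat.choose_mul_factorial_mul_factorial hi
  have p1 : ((i + e + r).factorial : ℝ) ≠ 0 := by positivity
  have p2 : ((2 * i + e).factorial : ℝ) ≠ 0 := by positivity
  have p3 : ((i + e + r + 1).factorial : ℝ) ≠ 0 := by positivity
  have p4 : (i.factorial : ℝ) ≠ 0 := by positivity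
  have p5 : ((m - i).factorial : ℝ) ≠ 0 := by positivity
  set Cn : ℝ := (catalan (i + e + r) : ℝ)
  set B : ℝ := ((i + e + m).choose (m - i) : ℝ)
  set b : ℝ := (m.choose i : ℝ)
  set σ : ℝ := symF e m (j + 1) i
  set Pr : ℝ := ∏ t ∈ Finset.range r, ((i : ℝ) + ((e : ℝ) + 1 / 2 + t))
  set F1 : ℝ := ((i + e + r).factorial : ℝ)
  set F2 : ℝ := ((2 * i + e).factorial : ℝ)
  set F3 : ℝ := ((i + e + r + 1).factorial : ℝ)
  set F4 : ℝ := (i.factorial : ℝ)
  set F5 : ℝ := ((m - i).factorial : ℝ)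
  set L : ℝ := ((i + e + m).factorial : ℝ)
  set D : ℝ := ((2 * (i + e + r)).factorial : ℝ)
  have key : (Cn * B * (m.factorial : ℝ)) * (F3 * F1 * F5 * F2) =
      (2 ^ (2 * r + e) * (b * σ)) * (F3 * F1 * F5 * F2) := by
    calc (Cn * B * (m.factorial : ℝ)) * (F3 * F1 * F5 * F2)
        = (Cn * F3 * F1) * (B * F5 * F2) * (m.factorial : ℝ) := by ring
      _ = D * L * (b * F4 * F5) := by rw [h2, h4, h5]
      _ = (D * F4) * (L * b * F5) := by ring
      _ = (2 ^ (2 * r + e) * F1 * F2 * Pr) * (L * b * F5) := by rw [h1]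
      _ = 2 ^ (2 * r + e) * F1 * F2 * b * F5 * (Pr * L) := by ring
      _ = 2 ^ (2 * r + e) * F1 * F2 * b * F5 * (σ * F3) := by rw [h3]
      _ = (2 ^ (2 * r + e) * (b * σ)) * (F3 * F1 * F5 * F2) := by ring
  exact mul_right_cancel₀ (by positivity) key

end Pool.Agent.Lib.MP_141d57_co
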