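import Pool.Agent.Lib.MP_141d57_co.Functional
import Pool.Agent.Lib.MP_141d57_co.Chain

/-!
The chain of polynomials and the common half plane property.
-/

open Polynomial

namespace Pool.Agent.Lib.MP_141d57_co

/-- parameters of the chain -/
noncomputable def par (e m κ t : ℕ) : ℝ :=
  (e : ℝ) + 1 / 2 + t + (if m - 1 ≤ t + κ then 3 / 2 else 0) +
    (if 2 * (m - 1) ≤ t + κ then 1 / 2 else 0)

lemma par_pos (e m κ t : ℕ) : 0 < par e m κ t := by
  unfold par
  have : (0 : ℝ) ≤ (if m - 1 ≤ t + κ then (3 / 2 : ℝ) else 0) := by split_ifs <;> norm_num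
  have : (0 : ℝ) ≤ (if 2 * (m - 1) ≤ t + κ then (1 / 2 : ℝ) else 0) := by split_ifs <;> norm_num
  positivity

/-- symbols of the chain -/
noncomputable def symP (e m κ : ℕ) : ℕ → ℝ :=
  fun i => ∏ t ∈ Finset.range (m - 1), ((i : ℝ) + par e m κ t)

lemma symP_pos (e m κ i : ℕ) : 0 < symP e m κ i := by
  unfold symP
  apply Finset.prod_pos
  intro t _
  have := par_pos e m κ t
  positivity

/-- symbol of the member with index `j = 0` -/
noncomputable def symQ0 (e m : ℕ) : ℕ → ℝ :=
  fun i => ((i : ℝ) + ((e : ℝ) + 1 / 2 + ((m - 1 : ℕ) : ℝ))) * symS e m i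

lemma symQ0_pos (e m i : ℕ) : 0 < symQ0 e m i := by
  unfold symQ0
  have := symS_pos e m i
  positivity

/-- symbols of the chain -/
noncomputable def symF (e m : ℕ) : ℕ → (ℕ → ℝ)
  | 0 => symL ((e : ℝ) + 1 / 2) m
  | 1 => symQ0 e m
  | (κ + 2) => symP e m κ

lemma symF_pos (e m k i : ℕ) : 0 < symF e m k i := by
  match k with
  | 0 => exact symL_pos (by positivity) m i
  | 1 => exact symQ0_pos e m i
  | (κ + 2) => exact symP_pos e m κ i

lemma step0 (e : ℕ) {m : ℕ} (hm : m ≠ 0) {z : ℂ} (hz : 0 < z.im) :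
    0 < (aeval z (S m (symF e m 1)) / aeval z (S m (symF e m 0))).im := by
  have h1 : S m (symF e m 1) = T ((e : ℝ) + 1 / 2 + ((m - 1 : ℕ) : ℝ)) (S m (symS e m)) := by
    rw [T_S]
    rfl
  have hPR : PR (S m (symF e m 1)) := by
    show PR (S m (symQ0 e m))
    unfold symQ0
    exact PR_mul hm (fun i _ => symS_pos e m i) (PR_symS e m) (by positivity)
  have hd : (S m (symF e m 1)).natDegree ≠ 0 := by
    rw [S_natDegree (symF_pos e m 1 m).ne']
    exact hm
  have h2 : S m (symF e m 0) = T ((e : ℝ) + m + 1) (S m (symF e m 1)) := by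
    rw [T_S]
    apply S_congr
    intro i _
    obtain ⟨k, rfl⟩ : ∃ k, m = k + 1 := ⟨m - 1, by omega⟩
    show symL ((e : ℝ) + 1 / 2) (k + 1) i = ((i : ℝ) + ((e : ℝ) + ((k + 1 : ℕ) : ℝ) + 1)) * symQ0 e (k + 1) i
    unfold symL symQ0 symS
    rw [Finset.prod_range_succ]
    simp only [Nat.add_sub_cancel]
    push_cast
    have : ((i : ℝ) + e + (k + 1) + 1) ≠ 0 := by positivity
    field_simp
    ring
  rw [h2]
  exact ratio_inv hPR hd hz

lemma step1 (e : ℕ) {m : ℕ} (hm : m ≠ 0) {z : ℂ} (hz : 0 < z.im) :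
    0 < (aeval z (S m (symF e m 2)) / aeval z (S m (symF e m 1))).im := by
  have h1 : S m (symF e m 1) = T ((e : ℝ) + 1 / 2 + ((m - 1 : ℕ) : ℝ)) (S m (symS e m)) := by
    rw [T_S]
    rfl
  have h2 : S m (symF e m 2) = T ((e : ℝ) + m + 1) (S m (symS e m)) := by
    rw [T_S]
    apply S_congr
    intro i _
    show symP e m 0 i = ((i : ℝ) + ((e : ℝ) + m + 1)) * symS e m i
    unfold symP symS
    have h3 : ∏ t ∈ Finset.range (m - 1), ((i : ℝ) + par e m 0 t) =
        ∏ t ∈ Finset.range (m - 1), ((i : ℝ) + ((e : ℝ) + 1 / 2 + t)) := by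
      apply Finset.prod_congr rfl
      intro t ht
      have ht' := Finset.mem_range.mp ht
      unfold par
      rw [if_neg (by omega), if_neg (by omega)]
      ring
    rw [h3]
    have : ((i : ℝ) + e + m + 1) ≠ 0 := by positivity
    field_simp
    ring
  have hd : (S m (symS e m)).natDegree ≠ 0 := by
    rw [S_natDegree (symS_pos e m m).ne']
    exact hm
  rw [h1, h2]
  apply ratio_T (PR_symS e m) hd _ hz
  have : ((m - 1 : ℕ) : ℝ) ≤ m := by
    exact_mod_cast Nat.sub_le m 1
  linarith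

lemma step2 (e : ℕ) {m : ℕ} (hm : m ≠ 0) {κ : ℕ} (hκ : κ < 2 * (m - 1)) {z : ℂ} (hz : 0 < z.im) :
    0 < (aeval z (S m (symF e m (κ + 1 + 2))) / aeval z (S m (symF e m (κ + 2)))).im := by
  show 0 < (aeval z (S m (symP e m (κ + 1))) / aeval z (S m (symP e m κ))).im
  unfold symP
  rcases Nat.lt_or_ge κ (m - 1) with h | h
  · apply ratio_prod hm (Finset.range (m - 1)) (par e m κ) (par e m (κ + 1))
      (fun t _ => par_pos e m κ t) (m - 2 - κ) (Finset.mem_range.mpr (by omega)) _ _ hz
    · intro t ht hne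
      have ht' := Finset.mem_range.mp ht
      unfold par
      congr 1
      · congr 1
        by_cases h1 : m - 1 ≤ t + κ
        · rw [if_pos h1, if_pos (by omega)]
        · rw [if_neg h1, if_neg (by omega)]
      · rw [if_neg (by omega), if_neg (by omega)]
    · unfold par
      rw [if_neg (by omega), if_neg (by omega), if_pos (by omega), if_neg (by omega)]
      linarith
  · apply ratio_prod hm (Finset.range (m - 1)) (par e m κ) (par e m (κ + 1))
      (fun t _ => par_pos e m κ t) (2 * (m - 1) - κ - 1) (Finset.mem_range.mpr (by omega)) _ _ hz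
    · intro t ht hne
      have ht' := Finset.mem_range.mp ht
      unfold par
      congr 1
      · congr 1
        rw [if_pos (by omega), if_pos (by omega)]
      · by_cases h1 : 2 * (m - 1) ≤ t + κ
        · rw [if_pos h1, if_pos (by omega)]
        · rw [if_neg h1, if_neg (by omega)]
    · unfold par
      rw [if_pos (by omega), if_neg (by omega), if_pos (by omega), if_pos (by omega)]
      linarith

lemma half_plane (e : ℕ) {m : ℕ} (hm : m ≠ 0) {k : ℕ} (hk1 : 1 ≤ k) (hk : k ≤ 2 * m)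
    {z : ℂ} (hz : 0 < z.im) :
    0 < (aeval z (S m (symF e m k)) / aeval z (S m (symF e m 0))).im := by
  apply chain (2 * m) (fun k => S m (symF e m k)) _ _ _ k hk1 hk z hz
  · intro k _
    exact S_eval_pos_of_nonpos (fun i _ => symF_pos e m k i) le_rfl
  · intro k hk z hz
    match k with
    | 0 => exact step0 e hm hz
    | 1 => exact step1 e hm hz
    | (κ + 2) => exact step2 e hm (by omega) hz
  · intro z hz
    obtain ⟨k, rfl⟩ : ∃ k, m = k + 1 := ⟨m - 1, by omega⟩
    have h1 : S (k + 1) (symF e (k + 1) (2 * (k + 1))) =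
        S (k + 1) (symL ((e : ℝ) + 1 / 2 + 2) (k + 1 - 1)) := by
      apply S_congr
      intro i _
      show symP e (k + 1) (2 * k) i = _
      unfold symP symL
      apply Finset.prod_congr rfl
      intro t ht
      unfold par
      rw [if_pos (by omega), if_pos (by omega)]
      ring
    have h2 := end_compare (c := (e : ℝ) + 1 / 2) (by positivity) hm hz
    show 0 < (aeval z (S (k + 1) (symF e (k + 1) (2 * (k + 1)))) /
      aeval z (S (k + 1) (symF e (k + 1) 0))).im
    rw [h1]
    exact h2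

/-- Nonnegative combinations do not vanish in the upper half plane. -/
lemma comb_ne_zero (e : ℕ) {m : ℕ} (hm : m ≠ 0) (γ : ℕ → ℝ) (hγ : ∀ j ≤ m, 0 ≤ γ j)
    (hγ0 : ∃ j ≤ m, γ j ≠ 0) {z : ℂ} (hz : 0 < z.im) :
    ∑ j ∈ Finset.range (m + 1), (γ j : ℂ) * aeval z (S m (symF e m (j + 1))) ≠ 0 := by
  intro h
  have hpos : 0 < ((∑ j ∈ Finset.range (m + 1), (γ j : ℂ) * aeval z (S m (symF e m (j + 1)))) /
      aeval z (S m (symF e m 0))).im := by
    rw [Finset.sum_div, Complex.im_sum]
    have h1 : ∀ j ∈ Finset.range (m + 1),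
        ((γ j : ℂ) * aeval z (S m (symF e m (j + 1))) / aeval z (S m (symF e m 0))).im =
        γ j * (aeval z (S m (symF e m (j + 1))) / aeval z (S m (symF e m 0))).im := by
      intro j _
      rw [mul_div_assoc, Complex.im_ofReal_mul]
    rw [Finset.sum_congr rfl h1]
    apply Finset.sum_pos'
    · intro j hj
      have hj' := Finset.mem_range.mp hj
      exact mul_nonneg (hγ j (by omega)) (half_plane e hm (by omega) (by omega) hz).le
    · obtain ⟨j, hj, hj0⟩ := hγ0
      refine ⟨j, Finset.mem_range.mpr (by omega), ?_⟩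
      exact mul_pos (lt_of_le_of_ne (hγ j hj) (Ne.symm hj0)) (half_plane e hm (by omega) (by omega) hz)
  rw [h] at hpos
  simp at hpos

/-- Nonnegative combinations have only real roots. -/
lemma comb_real (e : ℕ) {m : ℕ} (hm : m ≠ 0) (γ : ℕ → ℝ) (hγ : ∀ j ≤ m, 0 ≤ γ j)
    (hγ0 : ∃ j ≤ m, γ j ≠ 0) {z : ℂ}
    (hz : ∑ j ∈ Finset.range (m + 1), (γ j : ℂ) * aeval z (S m (symF e m (j + 1))) = 0) :
    z.im = 0 := by
  by_contra him
  rcases lt_or_gt_of_ne him with h | h
  · apply comb_ne_zero e hm γ hγ hγ0 (z := (starRingEnd ℂ) z) (by simpa using h)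
    have h1 := congrArg (starRingEnd ℂ) hz
    rw [map_sum, map_zero] at h1
    rw [← h1]
    apply Finset.sum_congr rfl
    intro j _
    rw [map_mul, Complex.conj_ofReal, Polynomial.aeval_conj]
  · exact comb_ne_zero e hm γ hγ hγ0 h hz

end Pool.Agent.Lib.MP_141d57_co
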