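import Pool.Agent.Lib.MP_141d57_co.Ode

/-!
Real-rootedness of the auxiliary polynomial `s` by a quasi-orthogonality argument.
-/

open Polynomial

namespace Pool.Agent.Lib.MP_141d57_co

lemma alt_sum_zero {m : ℕ} {P : ℝ[X]} (hP : P.natDegree < m) :
    ∑ i ∈ Finset.range (m + 1), (-1 : ℝ) ^ i * (m.choose i : ℝ) * P.eval (i : ℝ) = 0 := by
  have h1 := Polynomial.fwdDiff_iter_eq_zero_of_degree_lt hP
  have h2 := congrFun h1 0
  rw [fwdDiff_iter_eq_sum_shift] at h2
  simp only [Pi.zero_apply, zero_add, nsmul_eq_mul, mul_one, zsmul_eq_mul] at h2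
  have h3 : ∑ i ∈ Finset.range (m + 1), (-1 : ℝ) ^ i * (m.choose i : ℝ) * P.eval (i : ℝ) =
      (-1) ^ m * ∑ x ∈ Finset.range (m + 1),
        (((-1 : ℤ) ^ (m - x) * (m.choose x : ℤ) : ℤ) : ℝ) * P.eval (x : ℝ) := by
    rw [Finset.mul_sum]
    apply Finset.sum_congr rfl
    intro i hi
    have hi' : i ≤ m := by have := Finset.mem_range.mp hi; omega
    push_cast
    have h4 : (-1 : ℝ) ^ m * (-1) ^ (m - i) = (-1) ^ i := by
      have : m = (m - i) + i := by omega
      conv_lhs => rw [this]
      rw [Nat.add_sub_cancel, pow_add, mul_right_comm, ← pow_add, ← two_mul, pow_mul]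
      simp
    rw [← h4]
    ring
  rw [h3, h2, mul_zero]

/-- The symbol of the auxiliary polynomial. -/
noncomputable def symS (e m : ℕ) : ℕ → ℝ :=
  fun i => (∏ t ∈ Finset.range (m - 1), ((i : ℝ) + ((e : ℝ) + 1 / 2 + t))) /
    ((i : ℝ) + e + m + 1)

lemma symS_pos (e m i : ℕ) : 0 < symS e m i := by
  unfold symS
  apply div_pos
  · apply Finset.prod_pos
    intro t _
    positivity
  · positivity

lemma moment_sum (e m l : ℕ) (hl : l + 2 ≤ m) :
    ∑ i ∈ Finset.range (m + 1), ((-1 : ℝ) ^ i * (m.choose i : ℝ) * symS e m i) *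
      (1 / (2 * (i + l) + 2 * e + 1 : ℝ) + 1 / (2 * ((m : ℝ) - l) + 1)) = 0 := by
  classical
  set P : ℝ[X] := ∏ t ∈ (Finset.range (m - 1)).erase l, (X + C ((e : ℝ) + 1 / 2 + t)) with hP
  have hdeg : P.natDegree < m := by
    rw [hP, natDegree_prod_of_monic]
    · simp only [natDegree_X_add_C, Finset.sum_const, smul_eq_mul, mul_one]
      rw [Finset.card_erase_of_mem (Finset.mem_range.mpr (by omega)), Finset.card_range]
      omega
    · intro t _
      exact monic_X_add_C _
  have h0 := alt_sum_zero hdeg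
  have hne1 : (2 * ((m : ℝ) - l) + 1) ≠ 0 := by
    have : (l : ℝ) ≤ m := by exact_mod_cast (by omega : l ≤ m)
    have : 0 < 2 * ((m : ℝ) - l) + 1 := by linarith
    exact this.ne'
  rw [← mul_right_inj' (inv_ne_zero hne1), mul_zero, Finset.mul_sum] at h0
  rw [← h0]
  apply Finset.sum_congr rfl
  intro i _
  have h1 : P.eval (i : ℝ) = ∏ t ∈ (Finset.range (m - 1)).erase l, ((i : ℝ) + ((e : ℝ) + 1 / 2 + t)) := by
    rw [hP, eval_prod]
    apply Finset.prod_congr rfl
    intro t _
    simp
  rw [h1]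
  unfold symS
  rw [← Finset.mul_prod_erase (Finset.range (m - 1)) (fun t : ℕ => (i : ℝ) + ((e : ℝ) + 1 / 2 + t))
    (Finset.mem_range.mpr (by omega : l < m - 1))]
  have hne2 : (2 * ((i : ℝ) + l) + 2 * e + 1) ≠ 0 := by positivity
  have hne3 : ((i : ℝ) + e + m + 1) ≠ 0 := by positivity
  field_simp
  ring

/-- factorization used in the argument -/
lemma fact_aux : ∀ (n : ℕ) (r : ℝ[X]), r.natDegree ≤ n → r ≠ 0 →
    ∃ h f : ℝ[X], r = h * f ∧ (∀ x : ℝ, 0 ≤ x → x ≤ 1 → 0 ≤ h.eval x) ∧
      (∀ x : ℝ, 1 ≤ x → f.eval x ≠ 0) := by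
  intro n
  induction n with
  | zero =>
    intro r hr hr0
    refine ⟨1, r, by simp, by simp, ?_⟩
    intro x _ hx
    have h1 := eq_C_of_natDegree_le_zero hr
    rw [h1] at hx
    simp at hx
    rw [hx] at h1
    simp at h1
    exact hr0 h1
  | succ n ih =>
    intro r hr hr0
    by_cases hroot : ∃ x : ℝ, 1 ≤ x ∧ r.eval x = 0
    · obtain ⟨x, hx1, hx⟩ := hroot
      obtain ⟨r', hr'⟩ := dvd_iff_isRoot.mpr hx
      have hr'0 : r' ≠ 0 := by
        rintro rfl
        simp at hr'
        exact hr0 hr'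
      have hdeg : r'.natDegree ≤ n := by
        have := natDegree_mul (X_sub_C_ne_zero x) hr'0
        rw [← hr', natDegree_X_sub_C] at this
        omega
      obtain ⟨h, f, hf, hh, hff⟩ := ih r' hdeg hr'0
      refine ⟨(C x - X) * h, -f, ?_, ?_, ?_⟩
      · rw [hr', hf]
        ring
      · intro y hy0 hy1
        rw [eval_mul]
        apply mul_nonneg _ (hh y hy0 hy1)
        simp
        linarith
      · intro y hy
        rw [eval_neg]
        exact neg_ne_zero.mpr (hff y hy)
    · push Not at hroot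
      exact ⟨1, r, by simp, by simp, hroot⟩

lemma sign_const {f : ℝ[X]} (hf : ∀ x : ℝ, 1 ≤ x → f.eval x ≠ 0) {y : ℝ} (hy : 1 ≤ y) :
    0 < f.eval 1 * f.eval y := by
  by_contra hneg
  push Not at hneg
  have h1 := hf 1 le_rfl
  have hy0 := hf y hy
  have hlt : f.eval 1 * f.eval y < 0 := lt_of_le_of_ne hneg (mul_ne_zero h1 hy0)
  have hcont : ContinuousOn (fun x => f.eval x) (Set.uIcc 1 y) := f.continuous.continuousOn
  have hmem : (0 : ℝ) ∈ Set.uIcc (f.eval 1) (f.eval y) := by
    rcases mul_neg_iff.mp hlt with ⟨h2, h3⟩ | ⟨h2, h3⟩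
    · rw [Set.mem_uIcc]
      right
      exact ⟨h3.le, h2.le⟩
    · rw [Set.mem_uIcc]
      left
      exact ⟨h2.le, h3.le⟩
  obtain ⟨x, hx, hx0⟩ := intermediate_value_uIcc hcont hmem
  rw [Set.uIcc_of_le hy] at hx
  exact hf x hx.1 hx0

/-- The integral identity. -/
lemma int_identity (e m : ℕ) (f : ℝ[X]) (hf : f.natDegree + 2 ≤ m) :
    ∫ x in (0 : ℝ)..1, (S m (symS e m)).eval (x ^ 2) * f.eval (x ^ 2) * x ^ (2 * e) =
      -((S m (symS e m)).eval 1 *
        ∫ x in (0 : ℝ)..1, ∑ l ∈ Finset.range (m - 1), f.coeff l * x ^ (2 * (m - l))) := by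
  have hS : ∀ x : ℝ, (S m (symS e m)).eval x = ∑ i ∈ Finset.range (m + 1),
      ((-1 : ℝ) ^ i * (m.choose i : ℝ) * symS e m i) * x ^ i := by
    intro x
    unfold S
    rw [eval_finsetSum]
    apply Finset.sum_congr rfl
    intro i _
    simp
  have hfe : ∀ x : ℝ, f.eval x = ∑ l ∈ Finset.range (m - 1), f.coeff l * x ^ l := by
    intro x
    exact eval_eq_sum_range' (by omega) x
  have h1 : ∀ x : ℝ, (S m (symS e m)).eval (x ^ 2) * f.eval (x ^ 2) * x ^ (2 * e) =
      ∑ i ∈ Finset.range (m + 1), ∑ l ∈ Finset.range (m - 1),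
        (((-1 : ℝ) ^ i * (m.choose i : ℝ) * symS e m i) * f.coeff l) *
          x ^ (2 * (i + l) + 2 * e) := by
    intro x
    rw [hS, hfe, Finset.sum_mul_sum, Finset.sum_mul]
    apply Finset.sum_congr rfl
    intro i _
    rw [Finset.sum_mul]
    apply Finset.sum_congr rfl
    intro l _
    rw [← pow_mul, ← pow_mul, pow_add, mul_add, pow_add]
    ring
  have h2 : ∫ x in (0 : ℝ)..1, (S m (symS e m)).eval (x ^ 2) * f.eval (x ^ 2) * x ^ (2 * e) =
      ∑ i ∈ Finset.range (m + 1), ∑ l ∈ Finset.range (m - 1),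
        (((-1 : ℝ) ^ i * (m.choose i : ℝ) * symS e m i) * f.coeff l) *
          (1 / (2 * (i + l) + 2 * e + 1 : ℝ)) := by
    simp_rw [h1]
    rw [intervalIntegral.integral_finsetSum]
    · apply Finset.sum_congr rfl
      intro i _
      rw [intervalIntegral.integral_finsetSum]
      · apply Finset.sum_congr rfl
        intro l _
        rw [intervalIntegral.integral_const_mul, integral_pow]
        congr 1
        push_cast
        simp
      · intro l _
        exact (Continuous.intervalIntegrable (by fun_prop) _ _)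
    · intro i _
      exact (Continuous.intervalIntegrable (by fun_prop) _ _)
  have h3 : ∫ x in (0 : ℝ)..1, ∑ l ∈ Finset.range (m - 1), f.coeff l * x ^ (2 * (m - l)) =
      ∑ l ∈ Finset.range (m - 1), f.coeff l * (1 / (2 * ((m : ℝ) - l) + 1)) := by
    rw [intervalIntegral.integral_finsetSum]
    · apply Finset.sum_congr rfl
      intro l hl
      have hl' : l ≤ m := by have := Finset.mem_range.mp hl; omega
      rw [intervalIntegral.integral_const_mul, integral_pow]
      congr 1
      push_cast [Nat.cast_sub hl']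
      simp
    · intro l _
      exact (Continuous.intervalIntegrable (by fun_prop) _ _)
  rw [h2, h3, hS 1]
  rw [eq_neg_iff_add_eq_zero]
  simp only [one_pow, mul_one]
  rw [Finset.sum_mul_sum, ← Finset.sum_add_distrib]
  simp_rw [← Finset.sum_add_distrib]
  rw [Finset.sum_comm]
  apply Finset.sum_eq_zero
  intro l hl
  have hl' : l + 2 ≤ m := by have := Finset.mem_range.mp hl; omega
  have h4 := moment_sum e m l hl'
  have h5 : ∑ i ∈ Finset.range (m + 1), (((-1 : ℝ) ^ i * (m.choose i : ℝ) * symS e m i) * f.coeff l *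
      (1 / (2 * (i + l) + 2 * e + 1 : ℝ)) +
      (-1 : ℝ) ^ i * (m.choose i : ℝ) * symS e m i * (f.coeff l * (1 / (2 * ((m : ℝ) - l) + 1)))) =
      f.coeff l * ∑ i ∈ Finset.range (m + 1), ((-1 : ℝ) ^ i * (m.choose i : ℝ) * symS e m i) *
      (1 / (2 * (i + l) + 2 * e + 1 : ℝ) + 1 / (2 * ((m : ℝ) - l) + 1)) := by
    rw [Finset.mul_sum]
    apply Finset.sum_congr rfl
    intro i _
    ring
  rw [h5, h4, mul_zero]

lemma symS_real (e m : ℕ) (z : ℂ) (hz : aeval z (S m (symS e m)) = 0) : z.im = 0 := by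
  by_contra him
  set p := S m (symS e m) with hp
  have hp0 : p ≠ 0 := S_ne_zero (symS_pos e m m).ne'
  have hpdeg : p.natDegree = m := S_natDegree (symS_pos e m m).ne'
  obtain ⟨r, hr⟩ := quadratic_dvd_of_aeval_eq_zero_im_ne_zero p hz him
  set u : ℝ[X] := X ^ 2 - C (2 * z.re) * X + C (‖z‖ ^ 2) with hu
  have hu_eval : ∀ x : ℝ, 0 < u.eval x := by
    intro x
    have h1 : u.eval x = (x - z.re) ^ 2 + z.im ^ 2 := by
      rw [hu]
      simp only [eval_add, eval_sub, eval_mul, eval_pow, eval_X, eval_C]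
      rw [← Complex.normSq_eq_norm_sq, Complex.normSq_apply]
      ring
    rw [h1]
    have : 0 < z.im ^ 2 := by positivity
    have := sq_nonneg (x - z.re)
    linarith
  have hr0 : r ≠ 0 := by
    rintro rfl
    rw [mul_zero] at hr
    exact hp0 hr
  have hudeg : u.natDegree = 2 := by
    rw [hu]
    compute_degree!
  have hu0 : u ≠ 0 := by
    intro h
    rw [h] at hudeg
    simp at hudeg
  have hrdeg : r.natDegree + 2 = m := by
    have := natDegree_mul hu0 hr0
    rw [← hr, hpdeg, hudeg] at this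
    omega
  obtain ⟨h, f, hhf, hh, hf⟩ := fact_aux r.natDegree r le_rfl hr0
  have hh0 : h ≠ 0 := by
    rintro rfl
    rw [zero_mul] at hhf
    exact hr0 hhf
  have hf0 : f ≠ 0 := by
    rintro rfl
    rw [mul_zero] at hhf
    exact hr0 hhf
  have hfdeg : f.natDegree + 2 ≤ m := by
    have := natDegree_mul hh0 hf0
    rw [← hhf] at this
    omega
  have hid := int_identity e m f hfdeg
  -- left side positive
  have hpos : 0 < ∫ x in (0 : ℝ)..1, p.eval (x ^ 2) * f.eval (x ^ 2) * x ^ (2 * e) := by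
    apply intervalIntegral.integral_pos zero_lt_one
    · exact Continuous.continuousOn (by fun_prop)
    · intro x hx
      have h1 : p.eval (x ^ 2) * f.eval (x ^ 2) * x ^ (2 * e) =
          u.eval (x ^ 2) * h.eval (x ^ 2) * (f.eval (x ^ 2)) ^ 2 * (x ^ e) ^ 2 := by
        rw [hr, hhf, eval_mul, eval_mul]
        ring
      rw [h1]
      have h2 := hh (x ^ 2) (sq_nonneg x) (pow_le_one₀ hx.1.le hx.2)
      have h3 := (hu_eval (x ^ 2)).le
      positivity
    · -- existence of a point
      have hg0 : u * h * f ≠ 0 := mul_ne_zero (mul_ne_zero hu0 hh0) hf0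
      have : ∃ y : ℝ, 0 < y ∧ y < 1 ∧ (u * h * f).eval y ≠ 0 := by
        by_contra hall
        push Not at hall
        apply hg0
        apply eq_zero_of_infinite_isRoot
        apply Set.Infinite.mono (s := Set.Ioo (0 : ℝ) 1)
        · intro y hy
          exact hall y hy.1 hy.2
        · exact Set.Ioo_infinite zero_lt_one
      obtain ⟨y, hy0, hy1, hy⟩ := this
      refine ⟨Real.sqrt y, ⟨Real.sqrt_nonneg y, ?_⟩, ?_⟩
      · exact Real.sqrt_le_one.mpr hy1.le
      · have h1 : p.eval (Real.sqrt y ^ 2) * f.eval (Real.sqrt y ^ 2) * Real.sqrt y ^ (2 * e) =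
            u.eval y * h.eval y * (f.eval y) ^ 2 * (Real.sqrt y ^ e) ^ 2 := by
          rw [Real.sq_sqrt hy0.le, hr, hhf, eval_mul, eval_mul]
          ring
        rw [h1]
        rw [eval_mul, eval_mul] at hy
        have hu1 := hu_eval y
        have hh1 : 0 < h.eval y := by
          apply lt_of_le_of_ne (hh y hy0.le hy1.le)
          intro h0
          apply hy
          rw [← h0]
          simp
        have hf1 : 0 < (f.eval y) ^ 2 := by
          have : f.eval y ≠ 0 := by
            intro h0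
            apply hy
            rw [h0]
            simp
          positivity
        have hs1 : 0 < Real.sqrt y := Real.sqrt_pos.mpr hy0
        positivity
  -- right side nonpositive
  have hJ : 0 < ∫ x in (0 : ℝ)..1,
      f.eval 1 * ∑ l ∈ Finset.range (m - 1), f.coeff l * x ^ (2 * (m - l)) := by
    apply intervalIntegral.intervalIntegral_pos_of_pos_on
    · exact (Continuous.intervalIntegrable (by fun_prop) _ _)
    · intro x hx
      have hx0 : x ≠ 0 := hx.1.ne'
      have h1 : ∑ l ∈ Finset.range (m - 1), f.coeff l * x ^ (2 * (m - l)) =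
          x ^ (2 * m) * f.eval ((x ^ 2)⁻¹) := by
        rw [eval_eq_sum_range' (by omega : f.natDegree < m - 1), Finset.mul_sum]
        apply Finset.sum_congr rfl
        intro l hl
        have hl' : l ≤ m := by have := Finset.mem_range.mp hl; omega
        have h2 : x ^ (2 * m) = x ^ (2 * (m - l)) * (x ^ 2) ^ l := by
          rw [← pow_mul, ← pow_add]
          congr 1
          omega
        rw [h2, inv_pow]
        have : (x ^ 2) ^ l ≠ 0 := by positivity
        field_simp
      rw [h1]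
      have h3 : 1 ≤ (x ^ 2)⁻¹ := by
        rw [one_le_inv₀ (by positivity)]
        exact pow_le_one₀ hx.1.le hx.2.le
      have h4 := sign_const hf h3
      have h5 : 0 < x ^ (2 * m) := by
        have := hx.1
        positivity
      calc (0 : ℝ) < x ^ (2 * m) * (f.eval 1 * f.eval ((x ^ 2)⁻¹)) := mul_pos h5 h4
        _ = _ := by ring
    · exact zero_lt_one
  rw [intervalIntegral.integral_const_mul] at hJ
  rw [hid] at hpos
  have hp1 : p.eval 1 = u.eval 1 * h.eval 1 * f.eval 1 := by
    rw [hr, hhf, eval_mul, eval_mul]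
    ring
  rw [hp1] at hpos
  have h6 := hu_eval 1
  have h7 := hh 1 zero_le_one le_rfl
  have h8 : 0 ≤ u.eval 1 * h.eval 1 * (f.eval 1 *
      ∫ x in (0 : ℝ)..1, ∑ l ∈ Finset.range (m - 1), f.coeff l * x ^ (2 * (m - l))) := by
    positivity
  linarith

lemma PR_symS (e m : ℕ) : PR (S m (symS e m)) :=
  PR_of_real (fun i _ => symS_pos e m i) (symS_real e m)

end Pool.Agent.Lib.MP_141d57_co
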