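import Pool.Agent.Lib.MP_141d57_co.Ratio

/-!
The comparison between the first and the last member of the chain,
by a contiguity relation.
-/

open Polynomial

namespace Pool.Agent.Lib.MP_141d57_co

/-- The symbol of the first member. -/
noncomputable def symL (c : ℝ) (m : ℕ) : ℕ → ℝ :=
  fun i => ∏ t ∈ Finset.range m, ((i : ℝ) + (c + t))

lemma contig (c : ℝ) (m : ℕ) :
    X * derivative (S m (symL (c + 1) (m - 1))) =
      X * (X * derivative (S m (symL (c + 2) (m - 1))) - C (m : ℝ) * S m (symL (c + 2) (m - 1))) := by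
  congr 1
  ext i
  rw [coeff_derivative, coeff_sub, coeff_C_mul, S_coeff, S_coeff]
  have h1 : (X * derivative (S m (symL (c + 2) (m - 1)))).coeff i =
      (i : ℝ) * (S m (symL (c + 2) (m - 1))).coeff i := by
    cases i with
    | zero => simp
    | succ i =>
      rw [coeff_X_mul, coeff_derivative]
      push_cast
      ring
  rw [h1, S_coeff]
  have h2 : symL (c + 1) (m - 1) (i + 1) = symL (c + 2) (m - 1) i := by
    unfold symL
    apply Finset.prod_congr rfl
    intro t _
    push_cast
    ring
  rw [h2]
  have h3 : ((m.choose (i + 1) : ℕ) : ℝ) * ((i : ℝ) + 1) = (m.choose i : ℝ) * ((m : ℝ) - i) := by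
    rcases Nat.lt_or_ge m i with hlt | hge
    · rw [Nat.choose_eq_zero_of_lt hlt, Nat.choose_eq_zero_of_lt (by omega)]
      simp
    · have := Nat.choose_succ_right_eq m i
      have h4 : ((m.choose (i + 1) * (i + 1) : ℕ) : ℝ) = ((m.choose i * (m - i) : ℕ) : ℝ) := by
        rw [this]
      rw [Nat.cast_mul, Nat.cast_mul, Nat.cast_sub hge] at h4
      push_cast at h4
      exact h4
  rw [pow_succ]
  linear_combination (-1 : ℝ) ^ i * (-1) * symL (c + 2) (m - 1) i * h3

lemma im_sum_sq {s : Multiset ℂ} {z : ℂ} (hs : ∀ r ∈ s, r.im = 0) (hz : ∀ r ∈ s, z ≠ r) :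
    (z * (z * (s.map fun r => 1 / (z - r)).sum - (Multiset.card s : ℂ))).im =
      -(z.im * (s.map fun r => r.re ^ 2 / Complex.normSq (z - r)).sum) := by
  induction s using Multiset.induction_on with
  | empty => simp
  | cons a s ih =>
    have h1 := ih (fun r hr => hs r (Multiset.mem_cons_of_mem hr))
      (fun r hr => hz r (Multiset.mem_cons_of_mem hr))
    have ha := hs a (Multiset.mem_cons_self a s)
    have hza := hz a (Multiset.mem_cons_self a s)
    have h2 := im_term ha hza
    have hne : z - a ≠ 0 := sub_ne_zero.mpr hza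
    rw [Multiset.map_cons, Multiset.sum_cons, Multiset.card_cons, Multiset.map_cons,
      Multiset.sum_cons]
    have h3 : z * (z * (1 / (z - a) + (s.map fun r => 1 / (z - r)).sum) -
        ((Multiset.card s + 1 : ℕ) : ℂ)) =
        z * (z * (s.map fun r => 1 / (z - r)).sum - (Multiset.card s : ℂ)) +
          (a.re : ℂ) * (z * (1 / (z - a))) := by
      have har : ((a.re : ℝ) : ℂ) = a := by
        apply Complex.ext <;> simp [ha]
      rw [har]
      push_cast
      field_simp
      ring
    rw [h3, Complex.add_im, h1, Complex.im_ofReal_mul, h2]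
    ring

lemma w_sub_im_neg {f : ℝ[X]} (hf : PR f) (hd : f.natDegree ≠ 0) {z : ℂ} (hz : 0 < z.im) :
    (z * (w f z - (f.natDegree : ℂ))).im < 0 := by
  have h0 : aeval z f ≠ 0 := PR.ne f hf hz.ne'
  have hne : ∀ r ∈ (f.map (algebraMap ℝ ℂ)).roots, z ≠ r := by
    intro r hr h
    have := (hf.mem_roots hr).1
    rw [← h] at this
    exact hz.ne' this
  have hcard := (IsAlgClosed.splits (f.map (algebraMap ℝ ℂ))).natDegree_eq_card_roots
  rw [natDegree_map] at hcard
  unfold w
  rw [logDeriv_eq h0, hcard, im_sum_sq (fun r hr => (hf.mem_roots hr).1) hne]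
  have hpos : 0 < ((f.map (algebraMap ℝ ℂ)).roots.map
      fun r => r.re ^ 2 / Complex.normSq (z - r)).sum := by
    obtain ⟨a, ha⟩ := Multiset.exists_mem_of_ne_zero (roots_ne_zero hd)
    rw [← Multiset.cons_erase ha, Multiset.map_cons, Multiset.sum_cons]
    have h1 : 0 < a.re ^ 2 / Complex.normSq (z - a) := by
      have := (hf.mem_roots ha).2
      have h2 : 0 < Complex.normSq (z - a) := by
        rw [Complex.normSq_pos, sub_ne_zero]
        exact hne a ha
      positivity
    have h2 : 0 ≤ (((f.map (algebraMap ℝ ℂ)).roots.erase a).map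
        fun r => r.re ^ 2 / Complex.normSq (z - r)).sum := by
      apply Multiset.sum_nonneg
      intro x hx
      obtain ⟨r, _, rfl⟩ := Multiset.mem_map.mp hx
      exact div_nonneg (sq_nonneg _) (Complex.normSq_nonneg _)
    linarith
  have := mul_pos hz hpos
  linarith

lemma symL_pos {c : ℝ} (hc : 0 < c) (m i : ℕ) : 0 < symL c m i := by
  unfold symL
  apply Finset.prod_pos
  intro t _
  positivity

/-- The end comparison: `Im (q̂ / ℓ) > 0` in the upper half plane. -/
lemma end_compare {c : ℝ} (hc : 0 < c) {m : ℕ} (hm : m ≠ 0) {z : ℂ} (hz : 0 < z.im) :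
    0 < (aeval z (S m (symL (c + 2) (m - 1))) / aeval z (S m (symL c m))).im := by
  have hQ : PR (S m (symL (c + 2) (m - 1))) :=
    PR_prod hm (Finset.range (m - 1)) (fun t => c + 2 + t) (fun t _ => by positivity)
  have hdQ : (S m (symL (c + 2) (m - 1))).natDegree = m :=
    S_natDegree (symL_pos (by positivity) _ _).ne'
  have hQ0 : aeval z (S m (symL (c + 2) (m - 1))) ≠ 0 := PR.ne _ hQ hz.ne'
  -- ℓ = T c A
  have hL : S m (symL c m) = T c (S m (symL (c + 1) (m - 1))) := by
    rw [T_S]
    apply S_congr
    intro i _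
    obtain ⟨k, rfl⟩ : ∃ k, m = k + 1 := ⟨m - 1, by omega⟩
    unfold symL
    rw [Finset.prod_range_succ', mul_comm]
    congr 1
    · simp
    · apply Finset.prod_congr rfl
      intro t _
      push_cast
      ring
  -- Im (A / q̂) ≤ 0
  have hAQ : (aeval z (S m (symL (c + 1) (m - 1))) /
      aeval z (S m (symL (c + 2) (m - 1)))).im ≤ 0 := by
    rcases Nat.lt_or_ge m 2 with h2 | h2
    · have hm1 : m = 1 := by omega
      subst hm1
      have : S 1 (symL (c + 1) (1 - 1)) = S 1 (symL (c + 2) (1 - 1)) := by
        apply S_congr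
        intro i _
        simp [symL]
      rw [this, div_self hQ0]
      simp
    · obtain ⟨k, rfl⟩ : ∃ k, m = k + 2 := ⟨m - 2, by omega⟩
      have hA : S (k + 2) (symL (c + 1) (k + 2 - 1)) =
          T (c + 1) (S (k + 2) (symL (c + 2) k)) := by
        rw [T_S]
        apply S_congr
        intro i _
        unfold symL
        rw [show k + 2 - 1 = k + 1 from rfl, Finset.prod_range_succ', mul_comm]
        congr 1
        · simp
        · apply Finset.prod_congr rfl
          intro t _
          push_cast
          ring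
      have hB : S (k + 2) (symL (c + 2) (k + 2 - 1)) =
          T (c + 2 + k) (S (k + 2) (symL (c + 2) k)) := by
        rw [T_S]
        apply S_congr
        intro i _
        unfold symL
        rw [show k + 2 - 1 = k + 1 from rfl, Finset.prod_range_succ, mul_comm]
      have hY : PR (S (k + 2) (symL (c + 2) k)) :=
        PR_prod hm (Finset.range k) (fun t => c + 2 + t) (fun t _ => by positivity)
      have hdY : (S (k + 2) (symL (c + 2) k)).natDegree ≠ 0 := by
        rw [S_natDegree (symL_pos (by positivity) _ _).ne']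
        omega
      have h5 := ratio_T hY hdY (c := c + 1) (c' := c + 2 + k)
        (by have : (0 : ℝ) ≤ (k : ℝ) := Nat.cast_nonneg k
            linarith) hz
      rw [← hA, ← hB] at h5
      rw [← inv_div, Complex.inv_im]
      apply div_nonpos_of_nonpos_of_nonneg (by linarith) (Complex.normSq_nonneg _)
  -- main identity
  have hcont := congrArg (fun f => aeval z f) (contig c m)
  simp only [map_mul, map_sub, aeval_X, aeval_C, Complex.coe_algebraMap] at hcont
  have hLz : aeval z (S m (symL c m)) / aeval z (S m (symL (c + 2) (m - 1))) =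
      z * (w (S m (symL (c + 2) (m - 1))) z - ((S m (symL (c + 2) (m - 1))).natDegree : ℂ)) +
      (c : ℂ) * (aeval z (S m (symL (c + 1) (m - 1))) /
        aeval z (S m (symL (c + 2) (m - 1)))) := by
    rw [hL, aeval_T, hcont, hdQ]
    unfold w
    field_simp
    push_cast
    ring
  have hneg : (aeval z (S m (symL c m)) / aeval z (S m (symL (c + 2) (m - 1)))).im < 0 := by
    rw [hLz, Complex.add_im, Complex.im_ofReal_mul]
    have h6 := w_sub_im_neg hQ (by rw [hdQ]; exact hm) hz
    have h7 : c * (aeval z (S m (symL (c + 1) (m - 1))) /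
      aeval z (S m (symL (c + 2) (m - 1)))).im ≤ 0 := mul_nonpos_of_nonneg_of_nonpos hc.le hAQ
    linarith
  rw [← inv_div, Complex.inv_im]
  apply div_pos (by linarith)
  rw [Complex.normSq_pos]
  intro h8
  rw [h8] at hneg
  simp at hneg

end Pool.Agent.Lib.MP_141d57_co
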