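import Pool.Agent.Lib.MP_141d57_co.Basic

/-!
Ratios of `T c f` for different `c`, and the abstract chain lemma on arguments.
-/

open Polynomial

namespace Pool.Agent.Lib.MP_141d57_co

lemma ratio_T {f : ℝ[X]} (hf : PR f) (hd : f.natDegree ≠ 0) {c c' : ℝ} (h : c < c')
    {z : ℂ} (hz : 0 < z.im) : 0 < (aeval z (T c' f) / aeval z (T c f)).im := by
  have h0 : aeval z f ≠ 0 := PR.ne f hf hz.ne'
  have hw := w_im_neg hf hd hz
  rw [aeval_T_eq c h0, aeval_T_eq c' h0, mul_div_mul_left _ _ h0]
  have hne : w f z + c ≠ 0 := by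
    intro h1
    have := congrArg Complex.im h1
    simp at this
    exact hw.ne this
  have hns : 0 < Complex.normSq (w f z + c) := Complex.normSq_pos.mpr hne
  rw [Complex.div_im]
  simp only [Complex.add_im, Complex.ofReal_im, add_zero, Complex.add_re, Complex.ofReal_re]
  have : (w f z).im * ((w f z).re + c) / Complex.normSq (w f z + c) -
      ((w f z).re + c') * (w f z).im / Complex.normSq (w f z + c) =
      (c' - c) * (-(w f z).im) / Complex.normSq (w f z + c) := by
    ring
  rw [this]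
  apply div_pos _ hns
  apply mul_pos (by linarith) (by linarith)

lemma ratio_inv {f : ℝ[X]} (hf : PR f) (hd : f.natDegree ≠ 0) {c : ℝ}
    {z : ℂ} (hz : 0 < z.im) : 0 < (aeval z f / aeval z (T c f)).im := by
  have h0 : aeval z f ≠ 0 := PR.ne f hf hz.ne'
  have hw := w_im_neg hf hd hz
  have hne : w f z + c ≠ 0 := by
    intro h1
    have := congrArg Complex.im h1
    simp at this
    exact hw.ne this
  have hns : 0 < Complex.normSq (w f z + c) := Complex.normSq_pos.mpr hne
  rw [aeval_T_eq c h0]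
  have : aeval z f / (aeval z f * (w f z + c)) = (w f z + c)⁻¹ := by
    field_simp
  rw [this, Complex.inv_im]
  apply div_pos _ hns
  simpa using hw

/-- `S m p` with positive symbol has only positive real roots once it has only real roots. -/
lemma PR_of_real {m : ℕ} {p : ℕ → ℝ} (hp : ∀ i, i ≤ m → 0 < p i)
    (h : ∀ z : ℂ, aeval z (S m p) = 0 → z.im = 0) : PR (S m p) := by
  refine ⟨S_ne_zero (hp m le_rfl).ne', fun z hz => ?_⟩
  have him := h z hz
  refine ⟨him, ?_⟩
  by_contra hre
  push Not at hre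
  have hzr : z = ((z.re : ℝ) : ℂ) := by
    apply Complex.ext <;> simp [him]
  have h2 := S_eval_pos_of_nonpos hp hre
  rw [hzr] at hz
  have h3 : aeval ((z.re : ℝ) : ℂ) (S m p) = (((S m p).eval z.re : ℝ) : ℂ) := by
    have h5 := Polynomial.aeval_algebraMap_apply ℂ z.re (S m p)
    rw [Complex.coe_algebraMap, coe_aeval_eq_eval] at h5
    exact h5
  rw [h3] at hz
  have h4 : (S m p).eval z.re = 0 := by exact_mod_cast hz
  exact h2.ne' h4

lemma PR_mul {m : ℕ} (hm : m ≠ 0) {p : ℕ → ℝ} (hp : ∀ i, i ≤ m → 0 < p i)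
    (h : PR (S m p)) {c : ℝ} (hc : 0 < c) : PR (S m (fun i => ((i : ℝ) + c) * p i)) := by
  apply PR_of_real
  · intro i hi
    have := hp i hi
    positivity
  · intro z hz
    by_contra him
    have h0 : aeval z (S m p) ≠ 0 := PR.ne _ h him
    have hd : (S m p).natDegree ≠ 0 := by
      rw [S_natDegree (hp m le_rfl).ne']
      exact hm
    rw [← T_S, aeval_T_eq c h0] at hz
    rcases mul_eq_zero.mp hz with h1 | h1
    · exact h0 h1
    · have h2 := congrArg Complex.im h1
      simp at h2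
      rcases lt_or_gt_of_ne him with h3 | h3
      · exact (w_im_pos h hd h3).ne' h2
      · exact (w_im_neg h hd h3).ne h2

lemma PR_one (m : ℕ) : PR (S m (fun _ => 1)) := by
  apply PR_of_real
  · intro i _
    exact one_pos
  · intro z hz
    rw [S_one] at hz
    simp at hz
    have h1 : (1 : ℂ) - z = 0 := hz.1
    have h2 : z = 1 := by linear_combination -h1
    rw [h2]
    simp

/-- Product symbols. -/
lemma PR_prod {m : ℕ} (hm : m ≠ 0) (s : Finset ℕ) (a : ℕ → ℝ) (ha : ∀ t ∈ s, 0 < a t) :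
    PR (S m (fun i => ∏ t ∈ s, ((i : ℝ) + a t))) := by
  classical
  induction s using Finset.induction_on with
  | empty => simpa using PR_one m
  | insert t s ht ih =>
    have h1 := ih (fun u hu => ha u (Finset.mem_insert_of_mem hu))
    have h2 := PR_mul hm (p := fun i => ∏ t ∈ s, ((i : ℝ) + a t)) (fun i _ => by
      apply Finset.prod_pos
      intro u hu
      have := ha u (Finset.mem_insert_of_mem hu)
      positivity) h1 (ha t (Finset.mem_insert_self t s))
    have h3 : (fun i : ℕ => ∏ u ∈ insert t s, ((i : ℝ) + a u)) =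
        fun i : ℕ => ((i : ℝ) + a t) * ∏ u ∈ s, ((i : ℝ) + a u) := by
      funext i
      rw [Finset.prod_insert ht]
    rw [h3]
    exact h2

/-- One step: increase one of the parameters. -/
lemma ratio_prod {m : ℕ} (hm : m ≠ 0) (s : Finset ℕ) (a b : ℕ → ℝ) (ha : ∀ t ∈ s, 0 < a t)
    (t₀ : ℕ) (ht₀ : t₀ ∈ s) (hab : ∀ t ∈ s, t ≠ t₀ → a t = b t) (hlt : a t₀ < b t₀)
    {z : ℂ} (hz : 0 < z.im) :
    0 < (aeval z (S m (fun i => ∏ t ∈ s, ((i : ℝ) + b t))) /
      aeval z (S m (fun i => ∏ t ∈ s, ((i : ℝ) + a t)))).im := by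
  classical
  have h1 : (fun i : ℕ => ∏ t ∈ s, ((i : ℝ) + a t)) =
      fun i : ℕ => ((i : ℝ) + a t₀) * ∏ t ∈ s.erase t₀, ((i : ℝ) + a t) := by
    funext i
    rw [Finset.mul_prod_erase s (fun t => (i : ℝ) + a t) ht₀]
  have h2 : (fun i : ℕ => ∏ t ∈ s, ((i : ℝ) + b t)) =
      fun i : ℕ => ((i : ℝ) + b t₀) * ∏ t ∈ s.erase t₀, ((i : ℝ) + a t) := by
    funext i
    rw [← Finset.mul_prod_erase s (fun t => (i : ℝ) + b t) ht₀]
    congr 1
    apply Finset.prod_congr rfl
    intro t ht
    rw [Finset.mem_erase] at ht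
    rw [hab t ht.2 ht.1]
  rw [h1, h2, ← T_S, ← T_S]
  apply ratio_T _ _ hlt hz
  · exact PR_prod hm _ a (fun t ht => ha t (Finset.mem_of_mem_erase ht))
  · rw [S_natDegree]
    · exact hm
    · apply Finset.prod_ne_zero_iff.mpr
      intro t ht
      have := ha t (Finset.mem_of_mem_erase ht)
      positivity

end Pool.Agent.Lib.MP_141d57_co
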